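import Mathlib
import Pool.Agent.Y723.Z8.Stm
import Pool.Agent.TH841.PT.ANTX
import Pool.Agent.W358.RK2.GR
import Pool.Agent.TH841.PT.RSP
import Pool.Agent.TH841.PT.RVU
import Pool.Agent.TH841.PT.SubT

/-!
# Project Z8, step AVG: assembly of the average over the box
-/

set_option autoImplicit false

namespace Pool.Agent.Y455.Z8

open Finset Pool.Agent.W262.RK Pool.Agent.W307.RT Pool.Agent.TH841.PT Pool.Agent.Y723.Z8

lemma k45 {K : Type} [Field K] (h2 : (2 : K) ≠ 0) (x y : K) (hj : x ^ 2 + y ^ 2 = 0)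
    (hl : x ^ 2 - 2 * x * y - y ^ 2 = 0) : x = 0 ∧ y = 0 := by
  have h3 : 2 * (y * (x + y)) = 0 := by linear_combination hj - hl
  have h4 := (mul_eq_zero.1 h3).resolve_left h2
  rcases mul_eq_zero.1 h4 with h | h
  · subst h
    grind
  · have hx : x = -y := by linear_combination h
    subst hx
    grind

lemma k46 {K : Type} [Field K] (h2 : (2 : K) ≠ 0) (x y : K) (hj : x ^ 2 + y ^ 2 = 0)
    (hl : x ^ 2 + 2 * x * y - y ^ 2 = 0) : x = 0 ∧ y = 0 := by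
  have h := k45 h2 (-x) y (by linear_combination hj) (by linear_combination hl)
  exact ⟨neg_eq_zero.1 h.1, h.2⟩

lemma k56 {K : Type} [Field K] (h2 : (2 : K) ≠ 0) (x y : K)
    (hj : x ^ 2 - 2 * x * y - y ^ 2 = 0)
    (hl : x ^ 2 + 2 * x * y - y ^ 2 = 0) : x = 0 ∧ y = 0 := by
  have h3 : 2 * (2 * (x * y)) = 0 := by linear_combination hl - hj
  have h4 := (mul_eq_zero.1 ((mul_eq_zero.1 h3).resolve_left h2)).resolve_left h2
  rcases mul_eq_zero.1 h4 with h | h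
  · subst h
    grind
  · subst h
    grind

lemma key7 {K : Type} [Field K] (h2 : (2 : K) ≠ 0) (x y : K) (j l : Fin 7) (hjl : j < l)
    (hj : ![x, y, x - y, x + y, x ^ 2 + y ^ 2, x ^ 2 - 2 * x * y - y ^ 2,
      x ^ 2 + 2 * x * y - y ^ 2] j = 0)
    (hl : ![x, y, x - y, x + y, x ^ 2 + y ^ 2, x ^ 2 - 2 * x * y - y ^ 2,
      x ^ 2 + 2 * x * y - y ^ 2] l = 0) :
    x = 0 ∧ y = 0 := by
  fin_cases j <;> fin_cases l <;> simp at hjl hj hl ⊢ <;>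
    first
      | exact k45 h2 x y hj hl
      | exact k46 h2 x y hj hl
      | exact k56 h2 x y hj hl
      | grind

lemma F8_cast (p : ℕ) (a b : ℤ) (j : Fin 7) : ((F8 a b j : ℤ) : ZMod p) =
    ![(a : ZMod p), (b : ZMod p), a - b, a + b, a ^ 2 + b ^ 2, a ^ 2 - 2 * a * b - b ^ 2,
      a ^ 2 + 2 * a * b - b ^ 2] j := by
  unfold F8
  fin_cases j <;> simp

/-- an odd prime divides at most one of the forms -/
lemma two_forms {p : ℕ} (hp : p.Prime) (hp2 : 2 < p) {a b : ℤ} (hab : IsCoprime a b)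
    {j l : Fin 7} (hjl : j ≠ l) (hj : (p : ℤ) ∣ F8 a b j) (hl : (p : ℤ) ∣ F8 a b l) : False := by
  have := Fact.mk hp
  have h2 : (2 : ZMod p) ≠ 0 := by
    intro h
    have h3 : ((2 : ℕ) : ZMod p) = 0 := by exact_mod_cast h
    rw [CharP.cast_eq_zero_iff (ZMod p) p] at h3
    have := Nat.le_of_dvd (by norm_num) h3
    omega
  rw [← CharP.intCast_eq_zero_iff (ZMod p) p, F8_cast] at hj hl
  have h0 : (a : ZMod p) = 0 ∧ (b : ZMod p) = 0 := by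
    rcases lt_or_gt_of_ne hjl with h | h
    · exact key7 h2 _ _ j l h hj hl
    · exact key7 h2 _ _ l j h hl hj
  rw [CharP.intCast_eq_zero_iff (ZMod p) p, CharP.intCast_eq_zero_iff (ZMod p) p] at h0
  have h1 := hab.isUnit_of_dvd' h0.1 h0.2
  rw [Int.isUnit_iff] at h1
  omega

lemma pr8_dvd {z : ℕ} {a b : ℤ} (h0 : ∀ j, F8 a b j ≠ 0) (i : Fin 7 × Bool) {p : ℕ}
    (hp : p.Prime) (h : (p : ℤ) ∣ pr8 z a b i) : (p : ℤ) ∣ F8 a b i.1 ∧ ty8 i.1 p = i.2 := by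
  unfold pr8 at h
  rw [Int.natCast_dvd_natCast] at h
  refine ⟨?_, (partN_of hp h).2⟩
  rw [Int.natCast_dvd, ← partN_mul (Int.natAbs_ne_zero.2 (h0 i.1))
    (fun p => z < p ∧ ty8 i.1 p = i.2)]
  exact h.mul_right _

lemma pr8_Gd {z : ℕ} (hz : 2 ≤ z) {a b : ℤ} (hab : IsCoprime a b) (h0 : ∀ j, F8 a b j ≠ 0) :
    Gd z (pr8 z a b) := by
  refine ⟨fun i => ?_, fun p hp hzp i i' hii' => ?_⟩
  · unfold pr8
    exact_mod_cast partN_ne _ _
  · rintro ⟨h1, h2⟩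
    have e1 := pr8_dvd h0 i hp h1
    have e2 := pr8_dvd h0 i' hp h2
    by_cases hj : i.1 = i'.1
    · apply hii'
      refine Prod.ext hj ?_
      rw [← e1.2, ← e2.2, hj]
    · exact two_forms hp (by omega) hab hj e1.1 e2.1

/-- the conditions of the average imply that the forms do not vanish -/
lemma F8_ne {a b : ℤ} (h1 : M8 a b ≠ 0) (h2 : N8 a b ≠ 0) (h3 : M8 a b ≠ N8 a b) (j : Fin 7) :
    F8 a b j ≠ 0 := by
  unfold M8 at h1 h3
  unfold N8 at h2 h3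
  have h4 : (2 * a * b) ^ 4 - (a ^ 2 - b ^ 2) ^ 4 = -((a ^ 2 - 2 * a * b - b ^ 2) *
      (a ^ 2 + 2 * a * b - b ^ 2) * (a ^ 2 + b ^ 2) ^ 2) := by ring
  intro h
  unfold F8 at h
  fin_cases j
  · have h' : a = 0 := h
    apply h1
    rw [h']
    ring
  · have h' : b = 0 := h
    apply h1
    rw [h']
    ring
  · have h' : a - b = 0 := h
    apply h2
    have : a ^ 2 - b ^ 2 = 0 := by linear_combination (a + b) * h'
    rw [this]
    ring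
  · have h' : a + b = 0 := h
    apply h2
    have : a ^ 2 - b ^ 2 = 0 := by linear_combination (a - b) * h'
    rw [this]
    ring
  · have h' : a ^ 2 + b ^ 2 = 0 := h
    apply h3
    rw [h'] at h4
    linear_combination h4
  · have h' : a ^ 2 - 2 * a * b - b ^ 2 = 0 := h
    apply h3
    rw [h'] at h4
    linear_combination h4
  · have h' : a ^ 2 + 2 * a * b - b ^ 2 = 0 := h
    apply h3
    rw [h'] at h4
    linear_combination h4

lemma rr8_bd (i : Fin 7 × Bool) (p : ℕ) : 0 ≤ rr8 i p ∧ rr8 i p ≤ ((10 : ℕ) : ℝ) := by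
  unfold rr8
  split_ifs <;> norm_num

lemma NBT_nonneg {J : Type} [Fintype J] [DecidableEq J] (cls : J → Fin 4)
    (e : J → Fin 3 → Bool) (s : J → ℕ) : 0 ≤ NBT cls e s := by
  unfold NBT
  exact mul_nonneg (by positivity) (sum_nonneg fun _ _ => Nat.cast_nonneg _)

theorem antx : ANTX := ANTXf.antx_of Pool.Agent.W358.RK2.gr

/-- **AVG**: the average over the box -/
theorem avg_of (h1 : S_CNT) (h2 : S_RNK) (h3 : S_MAK) : S_AVG := by
  classical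
  obtain ⟨z1, hz1⟩ := h1
  obtain ⟨z2, hz2⟩ := h2
  obtain ⟨z3, hz3⟩ := h3
  obtain ⟨z, hz⟩ : ∃ z : ℕ, z = z1 + z2 + z3 + 22 := ⟨_, rfl⟩
  obtain ⟨Cc, K, y0, hCc0, hK1, hcn⟩ := hz1 z (by omega)
  obtain ⟨CR, D, hCR0, hD1, hrn⟩ := hz2 z (by omega)
  obtain ⟨CM, hCM⟩ := hz3 z (by omega)
  -- the rank
  let r : ℤ × ℤ → ℝ := fun t =>
    (2 : ℝ) ^ Module.finrank ℤ (EAB (-(M8 t.1 t.2)) (-(N8 t.1 t.2))).toAffine.Point
  have hr0 : ∀ t, 0 ≤ r t := fun t => by positivity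
  have hlog : ∀ y : ℕ, z < y → 0 < Real.log y := fun y hy =>
    Real.log_pos (by exact_mod_cast (by omega : 1 < y))
  have hgn : ∀ {y' : ℕ} {s : Fin 7 × Bool → ℕ} (_ : s ∈ Tup (Fin 7 × Bool) z y')
      (i : Fin 7 × Bool), 0 ≤ gp (rr8 i) 10 (s i) := fun hs i =>
    RSPf.gp_nonneg (fun p => (rr8_bd i p).1) (by omega)
      ((Pool.Agent.W405.RK2.mem_Tup.1 hs).1 i)
  suffices key : ∃ C2 : ℝ, ∀ θ : {n : ℕ // 1 ≤ n}, ∑ t ∈ (Box θ.1).filter (fun t : ℤ × ℤ =>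
      IsCoprime t.1 t.2 ∧ M8 t.1 t.2 ≠ 0 ∧ N8 t.1 t.2 ≠ 0 ∧ M8 t.1 t.2 ≠ N8 t.1 t.2), r t ≤
        C2 * ((θ.1 : ℝ) ^ 2) by
    obtain ⟨C2, hC2⟩ := key
    refine ⟨max C2 0, le_max_right _ _, fun T hT => ?_⟩
    exact (hC2 ⟨T, hT⟩).trans (mul_le_mul_of_nonneg_right (le_max_left _ _) (by positivity))
  refine antx (Fin 7 × Bool) (ℤ × ℤ) {n : ℕ // 1 ≤ n}
    (fun θ => (Box θ.1).filter (fun t : ℤ × ℤ =>
      IsCoprime t.1 t.2 ∧ M8 t.1 t.2 ≠ 0 ∧ N8 t.1 t.2 ≠ 0 ∧ M8 t.1 t.2 ≠ N8 t.1 t.2))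
    (fun θ => θ.1) (fun _ t => pr8 z t.1 t.2) (fun θ => (θ.1 : ℝ) ^ 2) z
    (fun y => (Real.log y) ^ 7)
    (fun s => NBT cls8 e8 s * ∏ i, gp (rr8 i) 10 (s i))
    (fun v => ∏ i, ((4 : ℝ) ^ (v i).primeFactors.card * (gp (rr8 i) 10 (v i) / v i)))
    (fun w => ∏ i, ((2 : ℝ) ^ (w i).primeFactors.card / (w i : ℝ)))
    (fun _ t => r t) (Cc * CR) D K y0
    (by omega) (fun y hy => pow_pos (hlog y hy) 7)
    (fun θ => θ.2) (fun θ => by positivity) (fun X0 => ?_) (fun θ t ht => ?_)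
    (fun θ t => hr0 _) (mul_nonneg hCc0 hCR0) hD1 hK1
    (fun y s hs => ⟨?_, ?_⟩) (fun y Y hzy w hw => ?_) (fun lam hlam => ?_)
    (fun lam hlam => ?_) (fun lam hlam => ?_) ?_
  · -- small scales
    refine ⟨∑ t ∈ Box X0, r t, ?_⟩
    rintro ⟨X, hX⟩ hle
    simp only at hle ⊢
    have e1 : ∑ t ∈ (Box X).filter (fun t : ℤ × ℤ =>
        IsCoprime t.1 t.2 ∧ M8 t.1 t.2 ≠ 0 ∧ N8 t.1 t.2 ≠ 0 ∧ M8 t.1 t.2 ≠ N8 t.1 t.2), r t ≤
        ∑ t ∈ Box X0, r t := by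
      refine sum_le_sum_of_subset_of_nonneg ?_ fun t _ _ => hr0 _
      intro t ht
      have h4 := mem_Box.1 (mem_filter.1 ht).1
      exact mem_Box.2 ⟨h4.1.trans hle, h4.2.trans hle⟩
    have e2 : (1 : ℝ) ≤ (X : ℝ) ^ 2 := one_le_pow₀ (by exact_mod_cast hX)
    exact e1.trans (le_mul_of_one_le_right (sum_nonneg fun _ _ => hr0 _) e2)
  · have h4 := (mem_filter.1 ht).2
    exact pr8_Gd (by omega) h4.1 (F8_ne h4.2.1 h4.2.2.1 h4.2.2.2)
  · exact mul_nonneg (NBT_nonneg _ _ _) (prod_nonneg fun i _ => hgn hs i)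
  · exact prod_nonneg fun i _ => mul_nonneg (by positivity)
      (div_nonneg (hgn hs i) (Nat.cast_nonneg _))
  · exact prod_nonneg fun i _ => by positivity
  · -- the first sum
    obtain ⟨A, hA⟩ := RSPf.rsp (Fin 7 × Bool) z 10 rr8 (NBT cls8 e8)
      (fun y => CM * (Real.log y) ^ 7) 4 lam (by omega) rr8_bd (by norm_num) hlam
      (NBT_nonneg _ _)
      (fun y hy s e' hse => SubT.subt (Fin 7 × Bool) cls8 e8 z y (by omega) s e' hse)
      (fun y hy => hCM y hy)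
    refine ⟨A * CM, fun y hy => ?_⟩
    have := hA y hy
    rw [mul_assoc]
    exact this
  · exact RVU.rvp (Fin 7 × Bool) z 10 rr8 4 lam (by omega) rr8_bd (by norm_num) hlam
  · exact RVU.rup (Fin 7 × Bool) 2 lam (by norm_num) hlam
  -- the local majorant
  rintro ⟨X, hX1⟩ y Y k hy0 hzy hyK hk s hs v hv w hw h8 T' hT' hval
  simp only at hyK hk h8 hT' hval ⊢
  obtain ⟨W, hW⟩ : ∃ W : ℝ, W = CR * D ^ k * 4 ^ (∑ i, (v i).primeFactors.card) *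
      NBT cls8 e8 s := ⟨_, rfl⟩
  have hW0 : 0 ≤ W := by
    rw [hW]
    exact mul_nonneg (by positivity) (NBT_nonneg _ _ _)
  have e1 : ∀ t ∈ T', r t ≤ W := by
    intro t ht
    have h4 := mem_filter.1 (hT' ht)
    obtain ⟨hts, htv, _⟩ := hval t ht
    have h5 := mem_Box.1 h4.1
    have h6 := hrn X y k t.1 t.2 h4.2.1 (F8_ne h4.2.2.1 h4.2.2.2.1 h4.2.2.2.2) h5.1 h5.2 hX1 hzy
      hk
    rw [hts, htv] at h6
    rw [hW]
    exact h6
  have e3 : (T'.card : ℝ) ≤ Cc * X ^ 2 * (∏ i, gp (rr8 i) 10 (s i)) *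
      (∏ i, gp (rr8 i) 10 (v i) / v i) * (∏ i, 2 ^ (w i).primeFactors.card / (w i : ℝ)) /
        (Real.log y) ^ 7 := by
    refine le_trans ?_ (hcn X y Y hy0 hzy hyK s hs v hv w hw h8)
    have h4 : T' ⊆ (Box X).filter (fun t : ℤ × ℤ => IsCoprime t.1 t.2 ∧
        (∀ j, F8 t.1 t.2 j ≠ 0) ∧ S1 z y (pr8 z t.1 t.2) = s ∧ S2 z y (pr8 z t.1 t.2) = v ∧
        ∀ i, (w i : ℤ) ∣ pr8 z t.1 t.2 i) := by
      intro t ht
      have h5 := mem_filter.1 (hT' ht)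
      have h6 := hval t ht
      exact mem_filter.2 ⟨h5.1, h5.2.1, F8_ne h5.2.2.1 h5.2.2.2.1 h5.2.2.2.2, h6.1, h6.2.1,
        h6.2.2⟩
    exact_mod_cast card_le_card h4
  calc ∑ t ∈ T', r t ≤ ∑ _t ∈ T', W := sum_le_sum e1
    _ = (T'.card : ℝ) * W := by rw [sum_const, nsmul_eq_mul]
    _ ≤ _ := mul_le_mul_of_nonneg_right e3 hW0
    _ = _ := by
        rw [hW, prod_mul_distrib (f := fun i => (4 : ℝ) ^ (v i).primeFactors.card),
          prod_pow_eq_pow_sum]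
        ring

end Pool.Agent.Y455.Z8
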